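import Pool.Agent.MP_4977d9_al.Final

universe u v w

namespace Pool.Agent.Results.MP_4977d9_al.NoUniversal

/-- An associative algebra, not necessarily unital, is algebraic when every element generates
a finite-dimensional subalgebra. -/
def IsAlgebraicAlgebra (F : Type u) [Field F] (A : Type v) [NonUnitalRing A] [Module F A]
    [IsScalarTower F A A] [SMulCommClass F A A] : Prop :=
  ∀ a : A, Module.Finite F (NonUnitalAlgebra.adjoin F {a})

/-- The dimension is finite or countably infinite. -/
def HasCountableDim (F : Type u) [Field F] (A : Type v) [NonUnitalRing A] [Module F A] : Prop :=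
  Module.rank F A ≤ Cardinal.aleph0

/-- Every element `a` satisfies `a ^ (n + 1) = 0` for some `n`. -/
def IsNilAlgebra (A : Type v) [NonUnitalRing A] : Prop :=
  ∀ a : A, ∃ n : ℕ, (fun x => a * x)^[n] a = 0

/-- A universal algebraic algebra: algebraic, of countable dimension, and every algebraic
algebra of countable dimension is a homomorphic image of it. -/
def IsUniversal (F : Type u) [Field F] (U : Type v) [NonUnitalRing U] [Module F U]
    [IsScalarTower F U U] [SMulCommClass F U U] : Prop :=
  IsAlgebraicAlgebra F U ∧ HasCountableDim F U ∧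
    ∀ (A : Type w) [NonUnitalRing A] [Module F A] [IsScalarTower F A A] [SMulCommClass F A A],
      IsAlgebraicAlgebra F A → HasCountableDim F A →
        ∃ f : U →ₙₐ[F] A, Function.Surjective f

open Pool.Agent.MP_4977d9_al in
/-- Over a countable field, no algebraic algebra of countable dimension maps onto all nil
algebras with four generators. -/
theorem exists_nil_not_image (F : Type u) [Field F] [Countable F] (U : Type v)
    [NonUnitalRing U] [Module F U] [IsScalarTower F U U] [SMulCommClass F U U]
    (hU1 : IsAlgebraicAlgebra F U) (hU2 : HasCountableDim F U) :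
    ∃ (A : Type w) (_ : NonUnitalRing A) (_ : Module F A) (_ : IsScalarTower F A A)
      (_ : SMulCommClass F A A),
      IsNilAlgebra A ∧ (∃ g : Fin 4 → A, NonUnitalAlgebra.adjoin F (Set.range g) = ⊤) ∧
      IsAlgebraicAlgebra F A ∧ HasCountableDim F A ∧
      ¬ ∃ f : U →ₙₐ[F] A, Function.Surjective f := by
  have hc : Countable U := countable_of_rank F U hU2
  obtain ⟨E, _, _, g, hcA, hnil, hno⟩ := diagonal F U hU1
  obtain ⟨B, _, _, _, _, e, e', he, he'⟩ := exists_model.{u, u, w} F
    (NonUnitalAlgebra.adjoin F (Set.range g))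
  have hBc : Countable B := Function.Injective.countable
    (f := e') (fun a b hab => by rw [← he' a, hab, he'])
  have hBnil : IsNilAlgebra B := by
    intro b
    obtain ⟨n, hn⟩ := hnil (e' b)
    refine ⟨n, ?_⟩
    have h1 : ∀ m : ℕ, ((e' ((fun x => b * x)^[m] b) : NonUnitalAlgebra.adjoin F (Set.range g)) : E)
        = ((e' b : NonUnitalAlgebra.adjoin F (Set.range g)) : E) ^ (m + 1) := by
      intro m
      induction m with
      | zero => simp
      | succ m ih =>
        rw [Function.iterate_succ_apply', map_mul, NonUnitalSubalgebra.coe_mul, ih,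
          ← pow_succ']
    have h2 : e' ((fun x => b * x)^[n] b) = 0 := by
      apply Subtype.ext
      rw [h1, pow_succ, hn, zero_mul]
      rfl
    rw [← he' ((fun x => b * x)^[n] b), h2, map_zero]
  have hgen : NonUnitalAlgebra.adjoin F (Set.range (fun i => e (⟨g i,
      NonUnitalAlgebra.subset_adjoin F ⟨i, rfl⟩⟩ : NonUnitalAlgebra.adjoin F (Set.range g))))
      = ⊤ := by
    rw [eq_top_iff]
    intro b _
    rw [← he' b]
    obtain ⟨a, ha⟩ := e' b
    have key : ∀ (a : E) (ha : a ∈ NonUnitalAlgebra.adjoin F (Set.range g)),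
        e ⟨a, ha⟩ ∈ NonUnitalAlgebra.adjoin F (Set.range (fun i => e (⟨g i,
          NonUnitalAlgebra.subset_adjoin F ⟨i, rfl⟩⟩ :
            NonUnitalAlgebra.adjoin F (Set.range g)))) := by
      intro a ha
      induction ha using NonUnitalAlgebra.adjoin_induction with
      | mem x hx =>
        obtain ⟨i, rfl⟩ := hx
        exact NonUnitalAlgebra.subset_adjoin F ⟨i, rfl⟩
      | add x y hx hy h1 h2 =>
        have h3 := add_mem h1 h2
        rw [← map_add] at h3
        exact h3
      | zero =>
        have h3 : e (0 : NonUnitalAlgebra.adjoin F (Set.range g)) = 0 := map_zero e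
        have h4 : (⟨0, zero_mem _⟩ : NonUnitalAlgebra.adjoin F (Set.range g)) = 0 := rfl
        rw [h4, h3]
        exact zero_mem _
      | mul x y hx hy h1 h2 =>
        have h3 := mul_mem h1 h2
        rw [← map_mul] at h3
        exact h3
      | smul r x hx h1 =>
        have h3 := SMulMemClass.smul_mem r h1
        rw [← map_smul] at h3
        exact h3
    exact key a ha
  have hBalg : IsAlgebraicAlgebra F B := by
    intro b
    have h1 : NonUnitalAlgebra.adjoin F {b} ≤
        (NonUnitalAlgebra.adjoin F {e' b}).comap e' := by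
      apply NonUnitalAlgebra.adjoin_le
      intro x hx
      rw [Set.mem_singleton_iff] at hx
      subst hx
      exact NonUnitalAlgebra.subset_adjoin F rfl
    have h2 : Module.Finite F (NonUnitalAlgebra.adjoin F {e' b}) :=
      finite_adjoin_of_isNilpotent_mem _ _ (hnil (e' b))
    have h3 : NonUnitalAlgebra.adjoin F {e' b} ≤ (NonUnitalAlgebra.adjoin F {b}).comap e := by
      apply NonUnitalAlgebra.adjoin_le
      intro x hx
      rw [Set.mem_singleton_iff] at hx
      subst hx
      change e (e' b) ∈ NonUnitalAlgebra.adjoin F {b}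
      rw [he']
      exact NonUnitalAlgebra.subset_adjoin F rfl
    let L : NonUnitalAlgebra.adjoin F {e' b} →ₗ[F] NonUnitalAlgebra.adjoin F {b} :=
      { toFun := fun x => ⟨e x, h3 x.2⟩
        map_add' := fun x y => Subtype.ext (map_add e _ _)
        map_smul' := fun c x => Subtype.ext (map_smul e c _) }
    refine Module.Finite.of_surjective L (fun y => ⟨⟨e' y, h1 y.2⟩, ?_⟩)
    exact Subtype.ext (he' y)
  refine ⟨B, inferInstance, inferInstance, inferInstance, inferInstance, hBnil, ⟨_, hgen⟩,
    hBalg, rank_of_countable F B, ?_⟩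
  rintro ⟨f, hf⟩
  refine hno ⟨e'.comp f, fun a => ?_⟩
  obtain ⟨u, hu⟩ := hf (e a)
  exact ⟨u, by rw [NonUnitalAlgHom.comp_apply, hu, he]⟩

/-- Over a countable field there is no universal algebraic algebra of countable dimension. -/
theorem result (F : Type u) [Field F] [Countable F] :
    ¬ ∃ (U : Type v) (_ : NonUnitalRing U) (_ : Module F U) (_ : IsScalarTower F U U)
        (_ : SMulCommClass F U U), IsUniversal.{u, v, w} F U := by
  rintro ⟨U, _, _, _, _, hU1, hU2, hU3⟩
  obtain ⟨A, _, _, _, _, -, -, hA1, hA2, hA3⟩ := exists_nil_not_image F U hU1 hU2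
  exact hA3 (hU3 A hA1 hA2)

end Pool.Agent.Results.MP_4977d9_al.NoUniversal
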